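import Pool.Agent.Q16.AMP.Basic
import Mathlib.Topology.Constructions
import Mathlib.Data.EReal.Basic

/-!
# Lower semicontinuity of minimal log discrepancies: few thresholds and errors `o(dim)` suffice

For a pair `(X, Δ)` as in the problem let `mld : X(k) → ℝ ∪ {-∞}` be the minimal log discrepancy on the
set of closed points. Lower semicontinuity says that for every `a` the set `{mld ≤ a}` is closed. We show
that it is enough to know this for the `a` in any set of real numbers which is not bounded above (for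
instance for large integers `a`), and that it is enough to know it up to errors `c dim X`, for every
`c > 0` in infinitely many dimensions: points `x` in the closure of `{mld ≤ a}` satisfy
`mld x ≤ a + c dim X`. If lower semicontinuity fails, it fails with jumps of linear size in all large
dimensions.
-/

set_option autoImplicit false

namespace Pool.Agent.Results.MP_f23696_ag.ThresholdsAndErrors

open Filter Pool.Agent.Q16.AMP Topology

universe u

/-- Pairs `(X, Δ)` as in the problem. -/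
structure Pairs where
  /-- the pairs -/
  Pair : Type u
  /-- the dimension of `X` -/
  dim : Pair → ℕ
  /-- the closed points of `X` -/
  Pt : Pair → Type u
  /-- the Zariski topology -/
  [top : ∀ X, TopologicalSpace (Pt X)]
  /-- the minimal log discrepancy at a closed point, a real number or `-∞` -/
  mld : ∀ X, Pt X → WithBot ℝ

attribute [instance] Pairs.top

/-- The known properties. -/
structure IsKnown (T : Pairs.{u}) : Prop where
  /-- Products: `(X × Y, Δ_X + Δ_Y)` has the closed points `(x, y)`; the closure of `A × B` contains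
  the products of the closures, because `X → X × {y}` and `Y → {x} × Y` are continuous; minimal log
  discrepancies are additive. -/
  prod : ∀ X Y : T.Pair, ∃ (Z : T.Pair) (i : T.Pt X → T.Pt Y → T.Pt Z), T.dim Z = T.dim X + T.dim Y ∧
    (∀ y, Continuous fun x => i x y) ∧ (∀ x, Continuous fun y => i x y) ∧
    ∀ x y, T.mld Z (i x y) = T.mld X x + T.mld Y y
  /-- the affine line with the divisor `(1 - r) · 0` has minimal log discrepancy `r ≥ 0` at `0`; the
  coefficient `1 - r` may be negative -/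
  line : ∀ r : ℝ, 0 ≤ r → ∃ (Y : T.Pair) (y : T.Pt Y), T.dim Y = 1 ∧ T.mld Y y = r

variable {T : Pairs.{u}}

/-- Lower semicontinuity of the minimal log discrepancy on closed points, for all pairs. -/
def LSC (T : Pairs.{u}) : Prop := ∀ (X : T.Pair) (a : ℝ), IsClosed {x : T.Pt X | T.mld X x ≤ a}

/-- For a threshold `a`: points `x` in the closure of `{mld ≤ a}` have `mld x ≤ a + ε`. -/
def UpTo (X : T.Pair) (a ε : ℝ) : Prop :=
  ∀ x ∈ closure {y : T.Pt X | T.mld X y ≤ a}, T.mld X x ≤ ((a + ε : ℝ) : WithBot ℝ)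

/-- For some threshold `a ≥ b` in `A` some point `x` in the closure of `{mld ≤ a}` has
`mld x ≥ a + t`. -/
def Jump (A : Set ℝ) (X : T.Pair) (t : ℝ) : Prop :=
  ∃ a ∈ A, ∃ x ∈ closure {y : T.Pt X | T.mld X y ≤ a}, ((a + t : ℝ) : WithBot ℝ) ≤ T.mld X x

theorem mem_closure_prod {X Y Z : T.Pair} (i : T.Pt X → T.Pt Y → T.Pt Z)
    (h1 : ∀ y, Continuous fun x => i x y) (h2 : ∀ x, Continuous fun y => i x y)
    {A : Set (T.Pt X)} {B : Set (T.Pt Y)} {C : Set (T.Pt Z)} (hC : ∀ x ∈ A, ∀ y ∈ B, i x y ∈ C)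
    {x : T.Pt X} {y : T.Pt Y} (hx : x ∈ closure A) (hy : y ∈ closure B) : i x y ∈ closure C := by
  have h3 : ∀ y ∈ B, i x y ∈ closure C := by
    intro y hy
    exact map_mem_closure (f := fun x => i x y) (h1 y) hx fun a ha => hC a ha y hy
  have h4 := map_mem_closure (f := fun y => i x y) (h2 x) hy h3
  rwa [closure_closure] at h4

/-- jumps add up under products -/
theorem jump_prod (hT : IsKnown T) {X Y : T.Pair} {s t a b : ℝ}
    (hX : ∃ x ∈ closure {y : T.Pt X | T.mld X y ≤ a}, ((a + s : ℝ) : WithBot ℝ) ≤ T.mld X x)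
    (hY : ∃ x ∈ closure {y : T.Pt Y | T.mld Y y ≤ b}, ((b + t : ℝ) : WithBot ℝ) ≤ T.mld Y x) :
    ∃ Z : T.Pair, T.dim Z = T.dim X + T.dim Y ∧
      ∃ x ∈ closure {y : T.Pt Z | T.mld Z y ≤ ((a + b : ℝ) : WithBot ℝ)},
        ((a + b + (s + t) : ℝ) : WithBot ℝ) ≤ T.mld Z x := by
  obtain ⟨x, hx, hx2⟩ := hX
  obtain ⟨y, hy, hy2⟩ := hY
  obtain ⟨Z, i, h1, h2, h3, h4⟩ := hT.prod X Y
  refine ⟨Z, h1, i x y, mem_closure_prod i h2 h3 (fun x' hx' y' hy' => ?_) hx hy, ?_⟩
  · show T.mld Z (i x' y') ≤ ((a + b : ℝ) : WithBot ℝ)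
    rw [h4, WithBot.coe_add]
    exact add_le_add hx' hy'
  · rw [h4, show a + b + (s + t) = (a + s) + (b + t) by ring, WithBot.coe_add]
    exact add_le_add hx2 hy2

/-- the thresholds can be moved into a set which is not bounded above -/
theorem jump_move (hT : IsKnown T) {A : Set ℝ} (hA : ∀ b, ∃ a ∈ A, b ≤ a) {X : T.Pair} {t a : ℝ}
    (hX : ∃ x ∈ closure {y : T.Pt X | T.mld X y ≤ a}, ((a + t : ℝ) : WithBot ℝ) ≤ T.mld X x) :
    ∃ Z : T.Pair, T.dim Z = T.dim X + 1 ∧ Jump A Z t := by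
  obtain ⟨b, hb, hab⟩ := hA a
  obtain ⟨Y, y, hY1, hY2⟩ := hT.line (b - a) (by linarith)
  obtain ⟨Z, h1, x, hx, hx2⟩ := jump_prod hT (t := 0) (b := b - a) hX
    ⟨y, subset_closure (by show T.mld Y y ≤ _; rw [hY2]), by rw [hY2, add_zero]⟩
  have e : a + (b - a) = b := by ring
  rw [e] at hx
  rw [e, add_zero] at hx2
  exact ⟨Z, by rw [h1, hY1], b, hb, x, hx, hx2⟩

theorem jump_univ {X : T.Pair} {t : ℝ} : Jump Set.univ X t ↔ ∃ a : ℝ,
    ∃ x ∈ closure {y : T.Pt X | T.mld X y ≤ a}, ((a + t : ℝ) : WithBot ℝ) ≤ T.mld X x :=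
  ⟨fun ⟨a, _, h⟩ => ⟨a, h⟩, fun ⟨a, h⟩ => ⟨a, trivial, h⟩⟩

theorem closed (hT : IsKnown T) : ∀ (X Y : T.Pair) (s t : ℝ), Jump Set.univ X s →
    Jump Set.univ Y t → ∃ Z, T.dim Z = T.dim X + T.dim Y ∧ Jump Set.univ Z (s + t) := by
  intro X Y s t hX hY
  obtain ⟨a, ha⟩ := jump_univ.1 hX
  obtain ⟨b, hb⟩ := jump_univ.1 hY
  obtain ⟨Z, h1, h2⟩ := jump_prod hT ha hb
  exact ⟨Z, h1, jump_univ.2 ⟨_, h2⟩⟩

theorem unbounded_univ : ∀ b : ℝ, ∃ a ∈ (Set.univ : Set ℝ), b ≤ a := fun b => ⟨b, trivial, le_rfl⟩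

theorem padded (hT : IsKnown T) : ∀ (X : T.Pair) (t : ℝ), Jump Set.univ X t →
    ∃ Z, T.dim Z = T.dim X + 1 ∧ Jump Set.univ Z t := by
  intro X t hX
  obtain ⟨a, ha⟩ := jump_univ.1 hX
  exact jump_move hT unbounded_univ ha

/-- failure of lower semicontinuity is a positive jump -/
theorem jump_of_not {X : T.Pair} {a : ℝ} (h : ¬ IsClosed {x : T.Pt X | T.mld X x ≤ a}) :
    ∃ t : ℝ, 0 < t ∧ ∃ x ∈ closure {y : T.Pt X | T.mld X y ≤ a},
      ((a + t : ℝ) : WithBot ℝ) ≤ T.mld X x := by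
  have h1 : ¬ closure {x : T.Pt X | T.mld X x ≤ a} ⊆ {x : T.Pt X | T.mld X x ≤ a} :=
    fun h2 => h (closure_subset_iff_isClosed.1 h2)
  obtain ⟨x, hx, hx2⟩ := Set.not_subset.1 h1
  have hx3 : ¬ T.mld X x ≤ a := hx2
  generalize hm : T.mld X x = m at hx3
  cases m with
  | bot => simp at hx3
  | coe m =>
    have h3 : a < m := by
      by_contra h4
      exact hx3 (WithBot.coe_le_coe.2 (not_lt.1 h4))
    exact ⟨m - a, by linarith, x, hx, by rw [hm]; exact WithBot.coe_le_coe.2 (by linarith)⟩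

theorem upTo_of_jump {A : Set ℝ} {X : T.Pair} {ε : ℝ} (h : ∀ t, Jump A X t → t ≤ ε) {a : ℝ}
    (ha : a ∈ A) : UpTo X a ε := by
  intro x hx
  generalize hm : T.mld X x = m
  cases m with
  | bot => exact bot_le
  | coe m =>
    have h1 := h (m - a) ⟨a, ha, x, hx, by rw [hm]; exact WithBot.coe_le_coe.2 (by linarith)⟩
    exact WithBot.coe_le_coe.2 (by linarith)

theorem jump_of_upTo {A : Set ℝ} {X : T.Pair} {ε : ℝ} (h : ∀ a ∈ A, UpTo X a ε) {t : ℝ}
    (hj : Jump A X t) : t ≤ ε := by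
  obtain ⟨a, ha, x, hx, hx2⟩ := hj
  have h1 := hx2.trans (h a ha x hx)
  have h2 : a + t ≤ a + ε := WithBot.coe_le_coe.1 h1
  linarith

/-- **Lower semicontinuity of minimal log discrepancies.** -/
theorem result (T : Pairs.{u}) (hT : IsKnown T) (A : Set ℝ) (hA : ∀ b, ∃ a ∈ A, b ≤ a) :
    (LSC T ↔ ∀ (X : T.Pair), ∀ a ∈ A, IsClosed {x : T.Pt X | T.mld X x ≤ a}) ∧
    (LSC T ↔ ∀ c : ℝ, 0 < c → ∃ᶠ n : ℕ in atTop, ∀ X : T.Pair, T.dim X = n → ∀ a ∈ A,
      UpTo X a (c * n)) ∧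
    (¬ LSC T → ∃ c : ℝ, 0 < c ∧ ∀ᶠ n : ℕ in atTop, ∃ X : T.Pair, T.dim X = n ∧
      ∃ a ∈ A, ¬ UpTo X a (c * n)) := by
  have key : ¬ LSC T → ∃ c : ℝ, 0 < c ∧ ∀ᶠ n : ℕ in atTop, ∃ X : T.Pair, T.dim X = n ∧
      ∃ a ∈ A, ¬ UpTo X a (c * n) := by
    intro h
    unfold LSC at h
    push Not at h
    obtain ⟨X, a, hX⟩ := h
    obtain ⟨t, ht, hx⟩ := jump_of_not hX
    obtain ⟨c, hc, N, hN⟩ := linear_growth (closed hT) (padded hT)
      (jump_univ.2 ⟨a, hx⟩ : Jump Set.univ X t) ht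
    refine ⟨c / 2, by positivity, ?_⟩
    filter_upwards [eventually_ge_atTop (N + 2)] with n hn
    obtain ⟨P, s, h1, h2, h3⟩ := hN (n - 1) (by omega)
    obtain ⟨b, hb⟩ := jump_univ.1 h2
    obtain ⟨Z, hZ1, b', hb', hZ2⟩ := jump_move hT hA hb
    refine ⟨Z, by omega, b', hb', fun hup => ?_⟩
    have h4 : s ≤ c / 2 * n := by
      have h5 : Jump {b'} Z s := ⟨b', rfl, hZ2⟩
      exact jump_of_upTo (A := {b'}) (fun a ha => by rw [Set.mem_singleton_iff.1 ha]; exact hup) h5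
    have h5 : (n : ℝ) = ((n - 1 : ℕ) : ℝ) + 1 := by
      rw [← Nat.cast_succ]
      congr 1
      omega
    have h6 : (1 : ℝ) ≤ ((n - 1 : ℕ) : ℝ) := by
      have : 1 ≤ n - 1 := by omega
      exact_mod_cast this
    rw [h5] at h4
    nlinarith
  have h0 : ∀ (X : T.Pair) (a : ℝ), IsClosed {x : T.Pt X | T.mld X x ≤ a} → ∀ ε : ℝ, 0 ≤ ε →
      UpTo X a ε := by
    intro X a h ε hε x hx
    rw [h.closure_eq] at hx
    have hx' : T.mld X x ≤ a := hx
    exact hx'.trans (WithBot.coe_le_coe.2 (by linarith))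
  have hfreq : (∀ c : ℝ, 0 < c → ∃ᶠ n : ℕ in atTop, ∀ X : T.Pair, T.dim X = n → ∀ a ∈ A,
      UpTo X a (c * n)) → LSC T := by
    intro h
    by_contra hL
    obtain ⟨c, hc, hev⟩ := key hL
    obtain ⟨n, hn1, X, hX, a, ha, hn2⟩ := ((h c hc).and_eventually hev).exists
    exact hn2 (hn1 X hX a ha)
  refine ⟨⟨fun h X a _ => h X a, fun h => hfreq fun c hc => ?_⟩, ⟨fun h c hc => ?_, hfreq⟩, key⟩
  · exact (Eventually.of_forall fun n X _ a ha => h0 X a (h X a ha) _ (by positivity)).frequently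
  · exact (Eventually.of_forall fun n X _ a _ => h0 X a (h X a) _ (by positivity)).frequently

end Pool.Agent.Results.MP_f23696_ag.ThresholdsAndErrors
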